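import Mathlib
import Pool.Agent.W645.WV.Stm

set_option autoImplicit false

/-!
Joint measurability of the solutions (statement `S_WM` of `Pool.Agent.W645.WV.Stm`).
-/

namespace Pool.Agent.W319.WV

open MeasureTheory Set Complex
open Pool.Agent.W645.WV

theorem meas_sn : Measurable (fun q : ℝ × ℝ => sn q.1 q.2) := by
  unfold sn
  refine Measurable.ite ?_ ?_ ?_
  · exact measurable_snd (measurableSet_singleton 0)
  · exact measurable_fst
  · have h1 : Measurable (fun q : ℝ × ℝ => Real.sqrt q.2) :=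
      Real.continuous_sqrt.measurable.comp measurable_snd
    have h2 : Measurable (fun q : ℝ × ℝ => 2 * Real.pi * q.1 * Real.sqrt q.2) :=
      (measurable_const.mul measurable_fst).mul h1
    exact (Real.measurable_sin.comp h2).div (measurable_const.mul h1)

theorem cont_H {n : ℕ} : Continuous (fun q : (Fin n → ℝ) × (Fin n → ℝ) => H q.1 q.2) := by
  unfold H
  fun_prop

theorem abs_sn {t : ℝ} (ht : 0 ≤ t) (y : ℝ) : |sn t y| ≤ t := by
  unfold sn
  by_cases hy : y = 0
  · rw [if_pos hy, abs_of_nonneg ht]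
  · rw [if_neg hy]
    by_cases h0 : Real.sqrt y = 0
    · rw [h0, mul_zero, mul_zero, div_zero, abs_zero]; exact ht
    · have h1 : 0 < Real.sqrt y := lt_of_le_of_ne (Real.sqrt_nonneg y) (Ne.symm h0)
      have h2 : 0 < 2 * Real.pi * Real.sqrt y := by positivity
      rw [abs_div, abs_of_pos h2, div_le_iff₀ h2]
      have h3 : |Real.sin (2 * Real.pi * t * Real.sqrt y)| ≤ |2 * Real.pi * t * Real.sqrt y| :=
        Real.abs_sin_le_abs
      rw [abs_of_nonneg (show 0 ≤ 2 * Real.pi * t * Real.sqrt y by positivity)] at h3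
      calc _ ≤ _ := h3
        _ = _ := by ring

theorem meas_main {n : ℕ} {m : ℝ → ℂ} (hm : Measurable m) {f g : (Fin n → ℝ) → ℂ}
    (hf : Measurable f) (hg : Measurable g) :
    Measurable (fun q : ((Fin n → ℝ) × ℝ) × (Fin n → ℝ) =>
      IFT (fun ξ => m (H q.1.1 ξ) * (((Real.cos (2 * Real.pi * q.1.2 * Real.sqrt (H q.1.1 ξ)) : ℝ) : ℂ)
        * f ξ + ((sn q.1.2 (H q.1.1 ξ) : ℝ) : ℂ) * g ξ)) q.2) := by
  unfold IFT
  have hH : Measurable (fun r : (((Fin n → ℝ) × ℝ) × (Fin n → ℝ)) × (Fin n → ℝ) =>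
      H r.1.1.1 r.2) := by
    have : Continuous (fun r : (((Fin n → ℝ) × ℝ) × (Fin n → ℝ)) × (Fin n → ℝ) =>
        H r.1.1.1 r.2) := cont_H.comp (by fun_prop :
          Continuous (fun r : (((Fin n → ℝ) × ℝ) × (Fin n → ℝ)) × (Fin n → ℝ) => (r.1.1.1, r.2)))
    exact this.measurable
  have ht : Measurable (fun r : (((Fin n → ℝ) × ℝ) × (Fin n → ℝ)) × (Fin n → ℝ) => r.1.1.2) := by
    fun_prop
  have hsq : Measurable (fun r : (((Fin n → ℝ) × ℝ) × (Fin n → ℝ)) × (Fin n → ℝ) =>
      Real.sqrt (H r.1.1.1 r.2)) := Real.continuous_sqrt.measurable.comp hH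
  have h1 : Measurable (fun r : (((Fin n → ℝ) × ℝ) × (Fin n → ℝ)) × (Fin n → ℝ) =>
      ((Real.cos (2 * Real.pi * r.1.1.2 * Real.sqrt (H r.1.1.1 r.2)) : ℝ) : ℂ)) :=
    Complex.measurable_ofReal.comp (Real.measurable_cos.comp
      ((measurable_const.mul ht).mul hsq))
  have h2 : Measurable (fun r : (((Fin n → ℝ) × ℝ) × (Fin n → ℝ)) × (Fin n → ℝ) =>
      ((sn r.1.1.2 (H r.1.1.1 r.2) : ℝ) : ℂ)) :=
    Complex.measurable_ofReal.comp (meas_sn.comp (ht.prodMk hH))
  have h3 : Measurable (fun r : (((Fin n → ℝ) × ℝ) × (Fin n → ℝ)) × (Fin n → ℝ) =>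
      cexp (2 * (Real.pi : ℂ) * I * ((∑ j, r.1.2 j * r.2 j : ℝ) : ℂ))) := by
    apply Continuous.measurable
    fun_prop
  have hF : Measurable (fun r : (((Fin n → ℝ) × ℝ) × (Fin n → ℝ)) × (Fin n → ℝ) =>
      m (H r.1.1.1 r.2) * (((Real.cos (2 * Real.pi * r.1.1.2 * Real.sqrt (H r.1.1.1 r.2)) : ℝ) : ℂ)
        * f r.2 + ((sn r.1.1.2 (H r.1.1.1 r.2) : ℝ) : ℂ) * g r.2) *
        cexp (2 * (Real.pi : ℂ) * I * ((∑ j, r.1.2 j * r.2 j : ℝ) : ℂ))) :=
    ((hm.comp hH).mul ((h1.mul (hf.comp measurable_snd)).add (h2.mul (hg.comp measurable_snd)))).mul h3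
  exact (hF.stronglyMeasurable.integral_prod_right (ν := (volume : Measure (Fin n → ℝ)))).measurable

theorem wm (hS : S_SCH) : S_WM := by
  intro n u₀ u₁ m hm hm1
  obtain ⟨-, -, c0, i0, -, -, -⟩ := hS n u₀ 0
  obtain ⟨-, -, c1, i1, -, -, -⟩ := hS n u₁ 0
  refine ⟨meas_main hm c0.measurable c1.measurable, ?_, ?_⟩
  · have h := meas_main (n := n) (m := fun _ => (1 : ℂ)) measurable_const c0.measurable c1.measurable
    simp only [one_mul] at h
    exact h
  · intro a t ht
    have hH : Continuous (fun ξ : Fin n → ℝ => H a ξ) :=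
      cont_H.comp (by fun_prop : Continuous (fun ξ : Fin n → ℝ => (a, ξ)))
    refine Integrable.add ?_ ?_
    · refine Integrable.bdd_mul (c := 1) i0 ?_ ?_
      · apply Measurable.aestronglyMeasurable
        exact Complex.measurable_ofReal.comp (Real.measurable_cos.comp
          (measurable_const.mul (Real.continuous_sqrt.measurable.comp hH.measurable)))
      · refine Filter.Eventually.of_forall fun ξ => ?_
        rw [Complex.norm_real, Real.norm_eq_abs]
        exact Real.abs_cos_le_one _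
    · refine Integrable.bdd_mul (c := t) i1 ?_ ?_
      · apply Measurable.aestronglyMeasurable
        exact Complex.measurable_ofReal.comp (meas_sn.comp (measurable_const.prodMk hH.measurable))
      · refine Filter.Eventually.of_forall fun ξ => ?_
        rw [Complex.norm_real, Real.norm_eq_abs]
        exact abs_sn ht _

end Pool.Agent.W319.WV
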